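import Mathlib
import Pool.Agent.N178.HW.StmC
import Pool.Agent.N830.HC.A3

/-!
# Hodge classes on the abelian varieties of the theorem
-/

set_option linter.unusedSectionVars false

namespace Pool.Agent.N457.HW

open Matrix Module Pool.Agent.Y90 Pool.Agent.R915 NumberField Pool.Agent.W437.HC
open Pool.Agent.N178.HW
open Pool.Agent.W547.KB (CMPair CMAV)

noncomputable section

/-- Factors of CM type with quadratic fields form one independent block. -/
theorem blocks_quad (C : CMAV) (hC : ∀ i, finrank ℚ (C.factor i).E = 2) :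
    Pool.Agent.W547.UB.IndependentBlocks C (fun _ => ()) where
  good j := by
    refine .small (fun i _ => ?_) fun i _ k _ _ => Or.inl ?_
    · rw [hC i]
      norm_num
    · haveI : Algebra.IsQuadraticExtension ℚ (C.factor i).E := ⟨hC i⟩
      infer_instance
  independent j := by
    refine ⟨(starRingAut : ℂ ≃+* ℂ), fun i φ => ⟨fun _ => ?_, fun h => absurd rfl h⟩⟩
    ext x
    rfl

/-- Hodge classes are in `Alg` if complex multiplication occurs only for elliptic curves. -/
theorem t_ALG : S_ALG := by
  intro d hd X hX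
  refine main_cm algSys X (fun a Z' h' i hi hinj hsim ha => ?_) fun Q _ _ a Z' h' hc => ?_
  · by_cases hcm : HasCMult (AVZ h')
    · exact Or.inr hcm
    refine Or.inl ⟨hcm, fun U hU => ?_⟩
    rcases (hX (AVZ h') ⟨hsim, i, hi, hinj⟩).ty with k | k | k | k | k
    · exact SmallDim.lc h' hsim ha ⟨k, fun h1 => absurd h1 hcm⟩ hU
    · exact k.lc h' hU
    · exact k.lc h' hsim ha hU
    · exact k.lc h' hsim ha hU
    · exact k.lc h' hsim ha hU
  · have key : ∀ q, ∃ P : CMPair, finrank ℚ P.E = 2 ∧ IsOfType (AVZ (h' q)) P := by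
      intro q
      obtain ⟨h3, h4, h5⟩ := hc q
      obtain ⟨P, hP⟩ := Pool.Agent.N830.HC.exists_type _ h3 h4
      refine ⟨P, ?_, hP⟩
      obtain ⟨e, -, -⟩ := hP
      rw [← e.finrank_eq]
      rcases h5 with h5 | ⟨h5, -⟩
      · exact (hX _ h5).cm h4
      · exact h5
    choose p hp1 hp2 using key
    exact prod_blocks algSys (blocks_quad ⟨Q, p⟩ hp1) h' fun q => ⟨q, hp2 q⟩

end

end Pool.Agent.N457.HW
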